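import Pool.Agent.K3h96.IN.Clif

/-!
# Brick S1: the Clifford correspondence with weights
-/

set_option autoImplicit false

open scoped BigOperators Classical
open Pool.Agent.Helper884.IC Pool.Agent.Y63.AWC Pool.Agent.R678.MC
open Pool.Agent.K3h83.IN Pool.Agent.K3h3.KB
open Pool.Agent.H254R3.IN (IsIrr)

set_option linter.style.haveILetI false

noncomputable section

namespace Pool.Agent.K3h96.IN

theorem t_S1 : S1 := by
  intro R _ w L G _ _ _ _ j hj hN θ hθ T hT jT hjT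
  haveI := Fintype.ofFinite G
  haveI := Fintype.ofFinite L
  have hjTi : Function.Injective jT := by
    intro a b hab
    apply hj
    rw [← hjT, ← hjT, hab]
  haveI hN' : jT.range.Normal := by
    refine ⟨?_⟩
    rintro _ ⟨l, rfl⟩ t
    obtain ⟨l', hl'⟩ := hN.conj_mem (j l) ⟨l, rfl⟩ (t : G)
    refine ⟨l', Subtype.ext ?_⟩
    rw [hjT, hl', Subgroup.coe_mul, Subgroup.coe_mul, hjT]
    rfl
  have hfix : ∀ x : T, x ∈ (⊤ : Subgroup T) ↔ fixes jT θ x := by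
    intro x
    constructor
    · intro _ l l' hll
      refine (hT (x : G)).1 x.2 l l' ?_
      have := congrArg (Subtype.val) hll
      rw [← hjT, ← hjT]
      exact this
    · intro _
      exact Subgroup.mem_top x
  set e : (G → ℂ) → ℕ := fun χ => mult j.range χ (tr j hj θ) with he
  set f : (T → ℂ) → ℕ := fun ψ => mult jT.range ψ (tr jT hjTi θ) with hf
  have h1 : ∀ χ ∈ Irr G, e χ = ∑ ψ ∈ Irr T, mult T χ ψ * f ψ := by
    intro χ hχ
    have h2 : B (fun l => χ (j l)) θ = ((e χ : ℕ) : ℂ) :=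
      (B_tr j hj θ χ).trans (mult_spec j.range (mem_Irr.mp hχ) (tr_irr j hj hθ))
    have h3 : (fun l => χ (j l)) = fun l => res T χ (jT l) := by
      funext l
      rw [res, hjT]
    have h4 : (fun l => res T χ (jT l)) =
        ∑ ψ ∈ Irr T, (mult T χ ψ : ℂ) • fun l => ψ (jT l) := by
      funext l
      rw [res_eq T (mem_Irr.mp hχ)]
      simp only [Finset.sum_apply, Pi.smul_apply]
    rw [h3, h4, B_sum_left] at h2
    have h5 : ∀ ψ ∈ Irr T, B ((mult T χ ψ : ℂ) • fun l => ψ (jT l)) θ =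
        ((mult T χ ψ * f ψ : ℕ) : ℂ) := by
      intro ψ hψ
      have h6 : B (fun l => ψ (jT l)) θ = ((f ψ : ℕ) : ℂ) :=
        (B_tr jT hjTi θ ψ).trans (mult_spec jT.range (mem_Irr.mp hψ) (tr_irr jT hjTi hθ))
      rw [B_smul_left, h6]
      push_cast
      rfl
    rw [Finset.sum_congr rfl h5] at h2
    have h6 : ((∑ ψ ∈ Irr T, mult T χ ψ * f ψ : ℕ) : ℂ) = ((e χ : ℕ) : ℂ) := by
      rw [Nat.cast_sum]
      exact h2
    exact_mod_cast h6.symm
  have hsum : ∑ χ ∈ Irr G, (∑ ψ ∈ Irr T, mult T χ ψ * f ψ) ^ 2 = ∑ ψ ∈ Irr T, f ψ ^ 2 := by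
    have h2 := clif j hj hθ T hT
    have h3 := clif jT hjTi hθ ⊤ hfix
    rw [Subgroup.card_top] at h3
    have h4 : ∑ χ ∈ Irr G, (∑ ψ ∈ Irr T, mult T χ ψ * f ψ) ^ 2 = ∑ χ ∈ Irr G, e χ ^ 2 :=
      Finset.sum_congr rfl fun χ hχ => by rw [h1 χ hχ]
    rw [h4]
    exact Nat.eq_of_mul_eq_mul_left (Nat.card_pos (α := L)) (h2.trans h3.symm)
  obtain ⟨c1, c2, c3⟩ := comb (Irr G) (Irr T) (fun χ ψ => mult T χ ψ) f hsum
    (fun ψ hψ _ => exists_above T (mem_Irr.mp hψ))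
  have hdeg : ∀ χ ∈ Irr G, ∀ ψ ∈ Irr T, f ψ ≠ 0 → mult T χ ψ ≠ 0 →
      ndeg χ = T.index * ndeg ψ := by
    intro χ hχ ψ hψ hfψ hm
    have h2 : e χ = f ψ := by
      rw [h1 χ hχ]
      exact c3 χ hχ ψ hψ hfψ hm
    have h3 := degree j hj hθ T hT (mem_Irr.mp hχ) (by
      change e χ ≠ 0
      rw [h2]
      exact hfψ)
    have h4 := degree jT hjTi hθ ⊤ hfix (mem_Irr.mp hψ) hfψ
    rw [Subgroup.index_top, one_mul] at h4
    change ndeg χ = e χ * _ at h3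
    change ndeg ψ = f ψ * _ at h4
    rw [h3, h4, h2]
    ring
  rw [wo_eq, wo_eq]
  have hA : ∀ χ ∈ Irr G, ov j θ χ ↔ e χ ≠ 0 := fun χ hχ => ov_iff_mult j hj hθ (mem_Irr.mp hχ)
  have hB : (Irr T).filter (ov jT θ) = (Irr T).filter fun ψ => f ψ ≠ 0 := by
    apply Finset.filter_congr
    intro ψ hψ
    exact ov_iff_mult jT hjTi hθ (mem_Irr.mp hψ)
  rw [hB]
  have step1 : ∑ χ ∈ (Irr G).filter (ov j θ), w (ndeg χ) =
      ∑ χ ∈ (Irr G).filter (ov j θ), ∑ ψ ∈ (Irr T).filter fun ψ => f ψ ≠ 0,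
        (mult T χ ψ : R) * (w T.index * w (ndeg ψ)) := by
    refine Finset.sum_congr rfl fun χ hχ => ?_
    rw [Finset.mem_filter] at hχ
    have h2 := c2 χ hχ.1 (by rw [← h1 χ hχ.1]; exact (hA χ hχ.1).1 hχ.2)
    have h3 : ∑ ψ ∈ (Irr T).filter (fun ψ => f ψ ≠ 0), (mult T χ ψ : R) *
        (w T.index * w (ndeg ψ)) =
        ∑ ψ ∈ (Irr T).filter (fun ψ => f ψ ≠ 0), (mult T χ ψ : R) * w (ndeg χ) := by
      refine Finset.sum_congr rfl fun ψ hψ => ?_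
      rw [Finset.mem_filter] at hψ
      by_cases hm : mult T χ ψ = 0
      · rw [hm, Nat.cast_zero, zero_mul, zero_mul]
      · rw [hdeg χ hχ.1 ψ hψ.1 hψ.2 hm, map_mul]
    rw [h3, ← Finset.sum_mul, ← Nat.cast_sum, h2, Nat.cast_one, one_mul]
  have step2 : ∀ ψ ∈ (Irr T).filter (fun ψ => f ψ ≠ 0),
      ∑ χ ∈ (Irr G).filter (ov j θ), (mult T χ ψ : R) * (w T.index * w (ndeg ψ)) =
        w T.index * w (ndeg ψ) := by
    intro ψ hψ
    rw [Finset.mem_filter] at hψ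
    rw [← Finset.sum_mul, ← Nat.cast_sum]
    have h2 : ∑ χ ∈ (Irr G).filter (ov j θ), mult T χ ψ = 1 := by
      rw [← c1 ψ hψ.1 hψ.2]
      refine Finset.sum_subset (Finset.filter_subset _ _) fun χ hχ hχ' => ?_
      by_contra hm
      apply hχ'
      rw [Finset.mem_filter]
      refine ⟨hχ, (hA χ hχ).2 ?_⟩
      rw [h1 χ hχ, c3 χ hχ ψ hψ.1 hψ.2 hm]
      exact hψ.2
    rw [h2, Nat.cast_one, one_mul]
  rw [step1, Finset.sum_comm, Finset.sum_congr rfl step2, ← Finset.mul_sum]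

end Pool.Agent.K3h96.IN
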