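import Pool.Agent.K3h83.IN.Stm

/-!
# The Clifford correspondence with weights
-/

set_option autoImplicit false

open scoped BigOperators Classical
open Pool.Agent.Helper884.IC Pool.Agent.Y63.AWC Pool.Agent.R678.MC
open Pool.Agent.K3h83.IN Pool.Agent.K3h3.KB
open Pool.Agent.H254R3.IN (IsIrr)

set_option linter.unusedSectionVars false
set_option linter.style.haveILetI false

noncomputable section

namespace Pool.Agent.K3h96.IN

lemma sum_sq_le {β : Type} (Bs : Finset β) (x : β → ℕ) :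
    ∑ b ∈ Bs, x b ^ 2 ≤ (∑ b ∈ Bs, x b) ^ 2 := by
  rw [sq, Finset.sum_mul]
  refine Finset.sum_le_sum fun b hb => ?_
  rw [sq]
  exact Nat.mul_le_mul_left _ (Finset.single_le_sum (fun _ _ => Nat.zero_le _) hb)

lemma eq_of_sq {β : Type} (Bs : Finset β) (x : β → ℕ)
    (h : ∑ b ∈ Bs, x b ^ 2 = (∑ b ∈ Bs, x b) ^ 2) {b : β} (hb : b ∈ Bs) (hx : x b ≠ 0) :
    ∑ b ∈ Bs, x b = x b := by
  have h1 : ∀ b ∈ Bs, x b ^ 2 ≤ x b * ∑ b ∈ Bs, x b := by
    intro b hb
    rw [sq]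
    exact Nat.mul_le_mul_left _ (Finset.single_le_sum (fun _ _ => Nat.zero_le _) hb)
  have h2 : ∑ b ∈ Bs, x b ^ 2 = ∑ b ∈ Bs, x b * ∑ b ∈ Bs, x b := by
    rw [h, sq, Finset.sum_mul]
  have h3 := (Finset.sum_eq_sum_iff_of_le h1).1 h2 b hb
  rw [sq] at h3
  exact (Nat.eq_of_mul_eq_mul_left (Nat.pos_of_ne_zero hx) h3).symm

lemma comb {α β : Type} (A : Finset α) (Bs : Finset β) (m : α → β → ℕ) (f : β → ℕ)
    (h1 : ∑ a ∈ A, (∑ b ∈ Bs, m a b * f b) ^ 2 = ∑ b ∈ Bs, f b ^ 2)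
    (h2 : ∀ b ∈ Bs, f b ≠ 0 → ∃ a ∈ A, m a b ≠ 0) :
    (∀ b ∈ Bs, f b ≠ 0 → ∑ a ∈ A, m a b = 1) ∧
    (∀ a ∈ A, (∑ b ∈ Bs, m a b * f b) ≠ 0 →
      ∑ b ∈ Bs.filter (fun b => f b ≠ 0), m a b = 1) ∧
    ∀ a ∈ A, ∀ b ∈ Bs, f b ≠ 0 → m a b ≠ 0 → ∑ b ∈ Bs, m a b * f b = f b := by
  have hrow : ∀ a ∈ A, ∑ b ∈ Bs, (m a b * f b) ^ 2 ≤ (∑ b ∈ Bs, m a b * f b) ^ 2 :=
    fun a _ => sum_sq_le Bs _
  have hswap : ∑ a ∈ A, ∑ b ∈ Bs, (m a b * f b) ^ 2 = ∑ b ∈ Bs, f b ^ 2 * ∑ a ∈ A, m a b ^ 2 := by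
    rw [Finset.sum_comm]
    refine Finset.sum_congr rfl fun b _ => ?_
    rw [Finset.mul_sum]
    exact Finset.sum_congr rfl fun a _ => by ring
  have hcol : ∀ b ∈ Bs, f b ^ 2 ≤ f b ^ 2 * ∑ a ∈ A, m a b ^ 2 := by
    intro b hb
    by_cases hf : f b = 0
    · simp [hf]
    · obtain ⟨a, ha, hm⟩ := h2 b hb hf
      have h3 : 1 ≤ ∑ a ∈ A, m a b ^ 2 := by
        refine le_trans ?_ (Finset.single_le_sum (f := fun a => m a b ^ 2)
          (fun _ _ => Nat.zero_le _) ha)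
        exact Nat.one_le_pow _ _ (Nat.pos_of_ne_zero hm)
      exact Nat.le_mul_of_pos_right _ h3
  have htot : ∑ a ∈ A, ∑ b ∈ Bs, (m a b * f b) ^ 2 = ∑ a ∈ A, (∑ b ∈ Bs, m a b * f b) ^ 2 := by
    apply le_antisymm (Finset.sum_le_sum hrow)
    rw [h1, hswap]
    exact Finset.sum_le_sum hcol
  have hrow' := (Finset.sum_eq_sum_iff_of_le hrow).1 htot
  have hcol' : ∀ b ∈ Bs, f b ^ 2 = f b ^ 2 * ∑ a ∈ A, m a b ^ 2 :=
    (Finset.sum_eq_sum_iff_of_le hcol).1 (by rw [← hswap, htot, h1])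
  have key1 : ∀ b ∈ Bs, f b ≠ 0 → ∑ a ∈ A, m a b = 1 := by
    intro b hb hf
    have h3 : ∑ a ∈ A, m a b ^ 2 = 1 := by
      have h4 := hcol' b hb
      have h5 : 0 < f b ^ 2 := by positivity
      exact (Nat.eq_of_mul_eq_mul_left h5 (by rw [mul_one]; exact h4)).symm
    apply le_antisymm
    · rw [← h3]
      exact Finset.sum_le_sum fun a _ => Nat.le_self_pow two_ne_zero _
    · obtain ⟨a, ha, hm⟩ := h2 b hb hf
      exact le_trans (Nat.pos_of_ne_zero hm) (Finset.single_le_sum (f := fun a => m a b)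
        (fun _ _ => Nat.zero_le _) ha)
  have key3 : ∀ a ∈ A, ∀ b ∈ Bs, f b ≠ 0 → m a b ≠ 0 → m a b = 1 := by
    intro a ha b hb hf hm
    apply le_antisymm
    · rw [← key1 b hb hf]
      exact Finset.single_le_sum (f := fun a => m a b) (fun _ _ => Nat.zero_le _) ha
    · exact Nat.pos_of_ne_zero hm
  refine ⟨key1, ?_, ?_⟩
  · intro a ha hne
    obtain ⟨b, hb, hbne⟩ := Finset.exists_ne_zero_of_sum_ne_zero hne
    have hm : m a b ≠ 0 := fun h => hbne (by rw [h, zero_mul])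
    have hf : f b ≠ 0 := fun h => hbne (by rw [h, mul_zero])
    have h3 := eq_of_sq Bs (fun b => m a b * f b) (hrow' a ha) hb hbne
    rw [Finset.sum_eq_single b]
    · exact key3 a ha b hb hf hm
    · intro c hc hcb
      rw [Finset.mem_filter] at hc
      by_contra hmc
      have h4 := eq_of_sq Bs (fun b => m a b * f b) (hrow' a ha) hc.1
        (Nat.mul_ne_zero hmc hc.2)
      have h5 : m a b * f b + m a c * f c ≤ ∑ b ∈ Bs, m a b * f b := by
        have h6 : ∑ d ∈ ({b, c} : Finset β), m a d * f d ≤ ∑ b ∈ Bs, m a b * f b := by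
          apply Finset.sum_le_sum_of_subset
          intro d hd
          rw [Finset.mem_insert, Finset.mem_singleton] at hd
          rcases hd with rfl | rfl
          · exact hb
          · exact hc.1
        rwa [Finset.sum_pair (Ne.symm hcb)] at h6
      rw [h4] at h5
      have h7 : 0 < m a b * f b := Nat.pos_of_ne_zero hbne
      omega
    · intro h
      exact absurd (Finset.mem_filter.2 ⟨hb, hf⟩) h
  · intro a ha b hb hf hm
    have h3 := eq_of_sq Bs (fun b => m a b * f b) (hrow' a ha) hb (Nat.mul_ne_zero hm hf)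
    rw [h3, key3 a ha b hb hf hm, one_mul]

/-- every irreducible character of a subgroup lies under an irreducible character of the group -/
lemma exists_above {X : Type} [Group X] [Fintype X] (M : Subgroup X) {ψ : M → ℂ}
    (h : IsIrrChar ψ) : ∃ χ ∈ Irr X, mult M χ ψ ≠ 0 := by
  by_contra hcon
  push Not at hcon
  set d : X → ℂ := fun x => if x = 1 then 1 else 0 with hd
  have hcl : IsClass d := by
    intro g y
    rw [hd]
    simp only
    congr 1
    rw [eq_iff_iff]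
    constructor
    · intro h1
      have h2 : y * g = y := by
        have := congrArg (fun z => z * y) h1
        simpa using this
      simpa using h2
    · rintro rfl
      simp
  have h1 := expand d hcl
  have h2 : B (res M d) ψ = 0 := by
    have h3 : res M d = ∑ χ ∈ Irr X, B d χ • res M χ := by
      funext t
      have := congrFun h1 (t : X)
      simpa [res, Finset.sum_apply] using this
    rw [h3, B_sum_left]
    refine Finset.sum_eq_zero fun χ hχ => ?_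
    rw [B_smul_left, mult_spec M (mem_Irr.mp hχ) h, hcon χ hχ, Nat.cast_zero, mul_zero]
  have h4 : B (res M d) ψ = (Nat.card M : ℂ)⁻¹ * ψ 1 := by
    unfold B
    congr 1
    rw [Finset.sum_eq_single (1 : M)]
    · simp [res, hd]
    · intro t _ ht
      have : (t : X) ≠ 1 := fun h => ht (Subtype.ext h)
      simp [res, hd, this]
    · intro h5
      exact absurd (Finset.mem_univ _) h5
  rw [h4] at h2
  have h5 : (Nat.card M : ℂ)⁻¹ ≠ 0 := inv_ne_zero (by exact_mod_cast Nat.card_pos.ne')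
  have h6 : ψ 1 = 0 := (mul_eq_zero.1 h2).resolve_left h5
  have h7 : IsIrr ψ := h
  have h8 := ndeg_cast h7
  rw [h6] at h8
  exact (ndeg_pos h7).ne' (by exact_mod_cast h8)

section

variable {L X : Type} [Group L] [Finite L] [Group X] [Fintype X] (i : L →* X)
  (hi : Function.Injective i)

/-- the transport of a function to the range -/
def tr (θ : L → ℂ) : i.range → ℂ := fun n => θ ((MonoidHom.ofInjective hi).symm n)

lemma tr_apply (θ : L → ℂ) (l : L) : tr i hi θ ⟨i l, ⟨l, rfl⟩⟩ = θ l := by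
  unfold tr
  congr 1
  rw [MulEquiv.symm_apply_eq]
  rfl

lemma tr_irr {θ : L → ℂ} (h : IsIrr θ) : IsIrrChar (tr i hi θ) :=
  irr_comp (MonoidHom.ofInjective hi).symm h

lemma tr_one (θ : L → ℂ) : tr i hi θ 1 = θ 1 := by
  unfold tr
  rw [map_one]

lemma B_tr {I : Fintype L} {J : Fintype i.range} (θ : L → ℂ) (χ : X → ℂ) :
    B (fun l => χ (i l)) θ = B (res i.range χ) (tr i hi θ) := by
  unfold B
  rw [Nat.card_congr (MonoidHom.ofInjective hi).toEquiv]
  congr 1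
  refine Fintype.sum_equiv (MonoidHom.ofInjective hi).toEquiv _ _ fun l => ?_
  change χ (i l) * θ l⁻¹ = χ (i l) * θ ((MonoidHom.ofInjective hi).symm
    ((MonoidHom.ofInjective hi) l)⁻¹)
  rw [← map_inv, MulEquiv.symm_apply_apply]

lemma ov_iff_mult {θ : L → ℂ} (h : IsIrr θ) {χ : X → ℂ} (hχ : IsIrrChar χ) :
    ov i θ χ ↔ mult i.range χ (tr i hi θ) ≠ 0 := by
  haveI := Fintype.ofFinite L
  rw [ov_iff, (B_tr i hi θ χ).trans (mult_spec i.range hχ (tr_irr i hi h))]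
  exact Nat.cast_ne_zero

variable [hN : i.range.Normal]

lemma fixes_iff (θ : L → ℂ) (x : X) : fixes i θ x ↔ cj i.range x (tr i hi θ) = tr i hi θ := by
  constructor
  · intro h
    funext ⟨n, l, hl⟩
    subst hl
    obtain ⟨l', hl'⟩ := hN.conj_mem (i l) ⟨l, rfl⟩ x
    rw [tr_apply]
    have h1 : (MulAut.conjNormal x ⟨i l, ⟨l, rfl⟩⟩ : i.range) = ⟨i l', ⟨l', rfl⟩⟩ := by
      apply Subtype.ext
      rw [MulAut.conjNormal_apply]
      exact hl'.symm
    unfold cj
    rw [h1, tr_apply]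
    exact h l l' hl'.symm
  · intro h l l' hll
    have h1 := congrFun h ⟨i l, ⟨l, rfl⟩⟩
    have h2 : (MulAut.conjNormal x ⟨i l, ⟨l, rfl⟩⟩ : i.range) = ⟨i l', ⟨l', rfl⟩⟩ := by
      apply Subtype.ext
      rw [MulAut.conjNormal_apply]
      exact hll
    unfold cj at h1
    rwa [h2, tr_apply, tr_apply] at h1

lemma inert_eq (θ : L → ℂ) (T : Subgroup X) (hT : ∀ x, x ∈ T ↔ fixes i θ x) :
    inert i.range (tr i hi θ) = T := by
  ext x
  rw [mem_inert, hT, fixes_iff i hi]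

lemma clif {θ : L → ℂ} (h : IsIrr θ) (T : Subgroup X) (hT : ∀ x, x ∈ T ↔ fixes i θ x) :
    Nat.card L * ∑ χ ∈ Irr X, mult i.range χ (tr i hi θ) ^ 2 = Nat.card T := by
  have h1 := clifford i.range (tr i hi θ) (tr i hi θ) (tr_irr i hi h) (tr_irr i hi h)
  rw [← Nat.card_congr (MonoidHom.ofInjective hi).toEquiv] at h1
  rw [← inert_eq i hi θ T hT]
  simp only [sq]
  exact h1

lemma degree {θ : L → ℂ} (h : IsIrr θ) (T : Subgroup X) (hT : ∀ x, x ∈ T ↔ fixes i θ x)
    {χ : X → ℂ} (hχ : IsIrrChar χ) (hm : mult i.range χ (tr i hi θ) ≠ 0) :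
    ndeg χ = mult i.range χ (tr i hi θ) * (T.index * ndeg θ) := by
  have h1 := hat hχ (tr_irr i hi h) hm
  rw [inert_eq i hi θ T hT, tr_one] at h1
  have h2 := ndeg_cast (show IsIrr χ from hχ)
  have h3 := ndeg_cast h
  have h4 : ((ndeg χ : ℕ) : ℂ) =
      ((mult i.range χ (tr i hi θ) * (T.index * ndeg θ) : ℕ) : ℂ) := by
    push_cast
    rw [h2, h3, h1]
  exact_mod_cast h4

end

end Pool.Agent.K3h96.IN
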